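import Pool.Agent.R7.Boot.Final

/-!
# MP_7332c2_co: a pendant edge at the hub of the wheel with six spokes

The dichotomy of Q1 fails: for the wheel `H` with six spokes and its hub `u`, the maximum running
time of `H^{u+}` has order `log n`, while the maximum running time of `H` is at least linear.
-/

set_option autoImplicit false

namespace Pool.Agent.Results.MP_7332c2_co.WheelHub

open Pool.Agent.R7.Boot

lemma log_bound (n : ℕ) : (Nat.log 5 n : ℝ) ≤ 5 * Real.sqrt n := by
  have h1 : ∀ k : ℕ, (k : ℝ) ≤ 5 * Real.sqrt ((5 : ℝ) ^ k) := by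
    intro k
    induction k with
    | zero => simp
    | succ k ih =>
      have h0 : (1 : ℝ) ≤ Real.sqrt ((5 : ℝ) ^ k) := by
        rw [Real.one_le_sqrt]
        exact one_le_pow₀ (by norm_num)
      have h2 : Real.sqrt ((5 : ℝ) ^ (k + 1)) = Real.sqrt 5 * Real.sqrt ((5 : ℝ) ^ k) := by
        rw [pow_succ, mul_comm, Real.sqrt_mul (by norm_num)]
      have h3 : (2 : ℝ) ≤ Real.sqrt 5 := by
        rw [Real.le_sqrt (by norm_num) (by norm_num)]
        norm_num
      rw [h2]
      push_cast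
      nlinarith
  by_cases hn : n = 0
  · subst hn; simp
  refine (h1 _).trans ?_
  have h2 : ((5 : ℝ) ^ Nat.log 5 n) ≤ n := by
    exact_mod_cast Nat.pow_log_le_self 5 hn
  have := Real.sqrt_le_sqrt h2
  linarith

/-- For the wheel with six spokes and a pendant edge at the hub the maximum running time is
`log_5 n + O(1)`, for the wheel itself it is at least `(n - 7) / 2`; in particular the dichotomy
asked for in Q1 fails. -/
theorem result :
    (wheel.Connected ∧
      (∀ n, 9 ≤ n → Nat.log 5 (n - 8) ≤ M (addPendant wheel none) n) ∧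
      (∀ n, 8 ≤ n → M (addPendant wheel none) n ≤ Nat.log 5 n + 66) ∧
      (∀ n, (n - 7) / 2 ≤ M wheel n)) ∧
    ¬ (∀ (W : Type) [Fintype W] (H : SimpleGraph W) (u : W), H.Connected →
      (∃ C N : ℕ, ∀ n ≥ N, M (addPendant H u) n ≤ C) ∨
      (∃ c C : ℝ, 0 < c ∧ c ≤ C ∧ ∃ N : ℕ, ∀ n ≥ N,
        c * (M H n : ℝ) ≤ (M (addPendant H u) n : ℝ) ∧
        (M (addPendant H u) n : ℝ) ≤ C * (M H n : ℝ))) := by
  have hlow : ∀ n, 9 ≤ n → Nat.log 5 (n - 8) ≤ M (addPendant wheel none) n := by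
    intro n hn
    apply M_wheelP_ge
    have := Nat.pow_log_le_self 5 (x := n - 8) (by omega)
    omega
  have hup : ∀ n, 8 ≤ n → M (addPendant wheel none) n ≤ Nat.log 5 n + 66 := fun n hn =>
    M_wheelP_le hn
  refine ⟨⟨wheel_connected, hlow, hup, M_wheel_ge⟩, fun hall => ?_⟩
  rcases hall _ wheel none wheel_connected with ⟨C, N, h⟩ | ⟨c, C, hc, -, N, h⟩
  · have h1 := h (5 ^ (C + 1) + 8 + N) (Nat.le_add_left _ _)
    have h2 : C + 1 ≤ M (addPendant wheel none) (5 ^ (C + 1) + 8 + N) :=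
      M_wheelP_ge (Nat.le_add_right _ _)
    omega
  · -- choose `n = k ^ 2` large
    obtain ⟨k, hk⟩ := exists_nat_gt (max (N + 8 : ℝ) (500 / c))
    have hk1 : (N + 8 : ℝ) < k := lt_of_le_of_lt (le_max_left _ _) hk
    have hk2 : 500 / c < k := lt_of_le_of_lt (le_max_right _ _) hk
    have hk1' : N + 8 < k := by exact_mod_cast hk1
    have hkk : k ≤ k ^ 2 := by nlinarith
    have h1 := (h (k ^ 2) (by omega)).1
    have h2 := hup (k ^ 2) (by omega)
    have h3 := M_wheel_ge (k ^ 2)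
    have h4 := log_bound (k ^ 2)
    have h5 : Real.sqrt ((k ^ 2 : ℕ) : ℝ) = k := by
      push_cast
      exact Real.sqrt_sq (Nat.cast_nonneg k)
    rw [h5] at h4
    have h6 : (M (addPendant wheel none) (k ^ 2) : ℝ) ≤ 5 * k + 66 := by
      have : (M (addPendant wheel none) (k ^ 2) : ℝ) ≤ (Nat.log 5 (k ^ 2) : ℝ) + 66 := by
        exact_mod_cast h2
      linarith
    have h7 : ((k ^ 2 : ℕ) : ℝ) ≤ 2 * (M wheel (k ^ 2) : ℝ) + 8 := by
      have : k ^ 2 ≤ 2 * M wheel (k ^ 2) + 8 := by omega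
      exact_mod_cast this
    push_cast at h7
    have hk8 : (8 : ℝ) < k := by
      have : 8 < k := by omega
      exact_mod_cast this
    have h8 : 500 < c * k := by
      rw [div_lt_iff₀ hc] at hk2
      linarith
    -- `c * (k ^ 2 - 8) / 2 ≤ 5 k + 66`
    have h9 : c * ((k : ℝ) ^ 2 - 8) ≤ 2 * (5 * k + 66) := by
      have : c * ((k : ℝ) ^ 2 - 8) ≤ c * (2 * (M wheel (k ^ 2) : ℝ)) :=
        mul_le_mul_of_nonneg_left (by linarith) hc.le
      linarith
    have h10 : (k : ℝ) ^ 2 / 2 ≤ (k : ℝ) ^ 2 - 8 := by nlinarith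
    have h11 : c * ((k : ℝ) ^ 2 / 2) ≤ c * ((k : ℝ) ^ 2 - 8) :=
      mul_le_mul_of_nonneg_left h10 hc.le
    nlinarith

end Pool.Agent.Results.MP_7332c2_co.WheelHub
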